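import Mathlib
import Pool.Agent.H969R2.Free

set_option autoImplicit false
set_option linter.unusedSectionVars false

open CategoryTheory CategoryTheory.Limits

namespace Pool.Agent.H969R2

section

variable {k : Type} [Field k] {σ D : Type} [Fintype σ] [AddCommGroup D] {w : σ → D}
  (f : MvPolynomial σ k) (δ : D)

/-- The generator of the free module over the quotient ring. -/
noncomputable def genF (b : Deg w (∅ : Set σ)) : (freeF f δ b).obj.obj b :=
  (freeFπ f δ b).app b (gen k w b)

lemma genF_desc (b : Deg w (∅ : Set σ)) (M : GrF w f δ) (y : M.obj.obj b) :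
    (freeFdesc f δ (lift y)).hom.app b (genF f δ b) = y := by
  have h4 := congrArg (fun g => g (gen k w b)) (congrArg ModuleCat.Hom.hom
    (congrArg (fun g => g.app b) (freeFπ_desc f δ (lift y))))
  refine Eq.trans h4 ?_
  exact lift_gen y

lemma genF_ext (b : Deg w (∅ : Set σ)) {M : GrF w f δ} {g g' : freeF f δ b ⟶ M}
    (h : g.hom.app b (genF f δ b) = g'.hom.app b (genF f δ b)) : g = g' := by
  apply (freeF_bijective f δ b M).1
  apply free_hom_ext
  exact h

lemma exists_freeF (b : Deg w (∅ : Set σ)) : ∃ (F : GrF w f δ) (x : F.obj.obj b),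
    ∀ (M : GrF w f δ) (y : M.obj.obj b), ∃! g : F ⟶ M, g.hom.app b x = y :=
  ⟨freeF f δ b, genF f δ b, fun M y => ⟨freeFdesc f δ (lift y), genF_desc f δ b M y,
    fun g hg => genF_ext f δ b (hg.trans (genF_desc f δ b M y).symm)⟩⟩

end

end Pool.Agent.H969R2
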