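import Mathlib
import Pool.Agent.H969Q.FreeEx
import Pool.Agent.H969R2.Base

set_option autoImplicit false
set_option linter.unusedSectionVars false
set_option linter.unusedVariables false

open CategoryTheory CategoryTheory.Limits CategoryTheory.Pretriangulated

namespace Pool.Agent.H969Q

open Pool.Agent.H969R2

/-- The degree category: objects are integers, morphisms `m ⟶ n` are monomials of degree `n - m`
in five variables. -/
def Dg : Type := Deg one5 (∅ : Set (Fin 5))

instance : Category.{0} Dg := instCategoryDeg one5 ∅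

/-- Integers as objects of the degree category. -/
def ob (n : ℤ) : Dg := ⟨n⟩

/-- Monomials of degree `n - m`. -/
def Mn (m n : Dg) : Type := m ⟶ n

/-- The exponent of a monomial (five nonnegative integers). -/
def ex {m n : Dg} (β : Mn m n) : Fin 5 → ℤ := Deg.Mor.exp β

/-- Graded modules over `ℂ[x₀, …, x₄]`, as functors from the degree category to vector spaces: a
vector space for every degree and a linear map for every monomial, compatibly with products. -/
def Gr : Type 1 := Dg ⥤ ModuleCat.{0} ℂ

instance : Category.{0} Gr := (inferInstance : Category (Dg ⥤ ModuleCat.{0} ℂ))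

noncomputable instance : Abelian Gr := (inferInstance : Abelian (Dg ⥤ ModuleCat.{0} ℂ))

noncomputable instance : Linear ℂ Gr := (inferInstance : Linear ℂ (Dg ⥤ ModuleCat.{0} ℂ))

/-- The piece of degree `m` of a graded module. -/
def pc (M : Gr) (m : Dg) : Type :=
  ModuleCat.carrier (R := ℂ) (CategoryTheory.Functor.obj (D := ModuleCat.{0} ℂ) M m)

noncomputable instance (M : Gr) (m : Dg) : AddCommGroup (pc M m) :=
  ModuleCat.isAddCommGroup (CategoryTheory.Functor.obj M m)

noncomputable instance (M : Gr) (m : Dg) : Module ℂ (pc M m) :=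
  ModuleCat.isModule (CategoryTheory.Functor.obj M m)

/-- The product of an element of a graded module by a monomial. -/
def ml (M : Gr) {m n : Dg} (β : Mn m n) (x : pc M m) : pc M n :=
  ModuleCat.Hom.hom (CategoryTheory.Functor.map M β) x

/-- Graded modules killed by the quartic polynomial `f`: the sum over all monomials `β` of degree
four of the coefficient of `β` in `f` times `β x` vanishes for every `x`. -/
def IsMod (f : MvPolynomial (Fin 5) ℂ) : ObjectProperty Gr := fun M =>
  ∀ (m : ℤ) (x : pc M (ob m)),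
    ∑ᶠ β : Mn (ob m) (ob (m + 4)), f.coeff (toN (ex β)) • ml M β x = 0

/-- Graded modules over `ℂ[x₀, …, x₄] / (f)`. -/
def GrM (f : MvPolynomial (Fin 5) ℂ) : Type 1 := (IsMod f).FullSubcategory

instance (f : MvPolynomial (Fin 5) ℂ) : Category.{0} (GrM f) :=
  (inferInstance : Category (IsMod f).FullSubcategory)

instance (f : MvPolynomial (Fin 5) ℂ) : (IsMod f).ContainsZero :=
  (inferInstance : (killed one5 f 4).ContainsZero)

instance (f : MvPolynomial (Fin 5) ℂ) : (IsMod f).IsClosedUnderKernels :=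
  (inferInstance : (killed one5 f 4).IsClosedUnderKernels)

instance (f : MvPolynomial (Fin 5) ℂ) : (IsMod f).IsClosedUnderCokernels :=
  (inferInstance : (killed one5 f 4).IsClosedUnderCokernels)

instance (f : MvPolynomial (Fin 5) ℂ) : (IsMod f).IsClosedUnderFiniteProducts :=
  (inferInstance : (killed one5 f 4).IsClosedUnderFiniteProducts)

noncomputable instance (f : MvPolynomial (Fin 5) ℂ) : Abelian (GrM f) :=
  (inferInstance : Abelian (IsMod f).FullSubcategory)

noncomputable instance (f : MvPolynomial (Fin 5) ℂ) : Linear ℂ (GrM f) :=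
  (inferInstance : Linear ℂ (IsMod f).FullSubcategory)

/-- The underlying graded module. -/
def und {f : MvPolynomial (Fin 5) ℂ} (M : GrM f) : Gr := M.1

/-- The map in degree `m` of a morphism of graded modules. -/
def app {f : MvPolynomial (Fin 5) ℂ} {M N : GrM f} (g : M ⟶ N) (m : Dg) (x : pc (und M) m) :
    pc (und N) m :=
  ModuleCat.Hom.hom (NatTrans.app (InducedCategory.Hom.hom g) m) x

/-- Torsion modules: every homogeneous element is killed by a power of each variable. -/
def Tors (f : MvPolynomial (Fin 5) ℂ) : ObjectProperty (GrM f) := fun M =>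
  ∀ (j : Fin 5) (m : Dg) (x : pc (und M) m), ∃ (n : Dg) (β : Mn m n),
    (∀ i, i ≠ j → ex β i = 0) ∧ ml (und M) β x = 0

instance (f : MvPolynomial (Fin 5) ℂ) : (Tors f).IsSerreClass :=
  (inferInstance : (torsF (k := ℂ) (w := one5) f 4 (fun j : Fin 5 => {j})).IsSerreClass)

/-- Quasi-coherent sheaves on the hypersurface `X` of equation `f`: the quotient of the category of
graded `ℂ[x₀, …, x₄] / (f)`-modules by the Serre subcategory of torsion modules. -/
def QCoh (f : MvPolynomial (Fin 5) ℂ) : Type 1 := (Tors f).isoModSerre.Localization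

noncomputable instance (f : MvPolynomial (Fin 5) ℂ) : Category.{1} (QCoh f) :=
  (inferInstance : Category (Tors f).isoModSerre.Localization)

noncomputable instance (f : MvPolynomial (Fin 5) ℂ) : Abelian (QCoh f) :=
  ObjectProperty.SerreClassLocalization.abelian (D := (Tors f).isoModSerre.Localization)
    (Tors f).isoModSerre.Q (Tors f)

noncomputable instance (f : MvPolynomial (Fin 5) ℂ) : Linear ℂ (QCoh f) :=
  (inferInstance : Linear ℂ (Tors f).isoModSerre.Localization)

/-- The sheaf associated with a graded module (the quotient functor). -/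
noncomputable def sh (f : MvPolynomial (Fin 5) ℂ) : GrM f ⥤ QCoh f := (Tors f).isoModSerre.Q

/-- Existence of the free graded module on one generator of degree `b`. -/
theorem exists_free (f : MvPolynomial (Fin 5) ℂ) (b : Dg) : ∃ (F : GrM f) (x : pc (und F) b),
    ∀ (M : GrM f) (y : pc (und M) b), ∃! g : F ⟶ M, app g b x = y :=
  exists_freeF (w := one5) f 4 b

/-- The free graded `ℂ[x₀, …, x₄] / (f)`-module on one generator of degree `b`. -/
noncomputable def fr (f : MvPolynomial (Fin 5) ℂ) (b : Dg) : GrM f := (exists_free f b).choose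

/-- The line bundle `O_X(n)`: the sheaf of the free module on a generator of degree `-n`. -/
noncomputable def O (f : MvPolynomial (Fin 5) ℂ) (n : ℤ) : QCoh f := (sh f).obj (fr f (ob (-n)))

/-- Finitely generated graded modules: there is a jointly epimorphic finite family of morphisms
from free modules. -/
def FG {f : MvPolynomial (Fin 5) ℂ} (M : GrM f) : Prop :=
  ∃ (r : ℕ) (b : Fin r → Dg) (g : ∀ j, fr f (b j) ⟶ M),
    ∀ (N : GrM f) (h h' : M ⟶ N), (∀ j, g j ≫ h = g j ≫ h') → h = h'

/-- Coherent sheaves: the sheaves associated with finitely generated graded modules. -/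
def Coh (f : MvPolynomial (Fin 5) ℂ) (E : QCoh f) : Prop :=
  ∃ M : GrM f, FG M ∧ Nonempty (E ≅ (sh f).obj M)

noncomputable instance (f : MvPolynomial (Fin 5) ℂ) : HasDerivedCategory.{1} (QCoh f) :=
  HasDerivedCategory.standard _

/-- The (unbounded) derived category of quasi-coherent sheaves on `X`. -/
def DX (f : MvPolynomial (Fin 5) ℂ) : Type 1 := DerivedCategory (QCoh f)

noncomputable instance (f : MvPolynomial (Fin 5) ℂ) : Category.{1} (DX f) :=
  (inferInstance : Category (DerivedCategory (QCoh f)))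

noncomputable instance (f : MvPolynomial (Fin 5) ℂ) : Preadditive (DX f) :=
  (inferInstance : Preadditive (DerivedCategory (QCoh f)))

instance (f : MvPolynomial (Fin 5) ℂ) : HasZeroObject (DX f) :=
  (inferInstance : HasZeroObject (DerivedCategory (QCoh f)))

noncomputable instance (f : MvPolynomial (Fin 5) ℂ) : HasShift (DX f) ℤ :=
  (inferInstance : HasShift (DerivedCategory (QCoh f)) ℤ)

instance (f : MvPolynomial (Fin 5) ℂ) (n : ℤ) : (shiftFunctor (DX f) n).Additive :=
  (inferInstance : (shiftFunctor (DerivedCategory (QCoh f)) n).Additive)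

noncomputable instance (f : MvPolynomial (Fin 5) ℂ) : Pretriangulated (DX f) :=
  (inferInstance : Pretriangulated (DerivedCategory (QCoh f)))

noncomputable instance (f : MvPolynomial (Fin 5) ℂ) : Linear ℂ (DX f) :=
  (inferInstance : Linear ℂ (DerivedCategory (QCoh f)))

/-- The cohomology sheaves of a complex. -/
noncomputable def coho (f : MvPolynomial (Fin 5) ℂ) (i : ℤ) : DX f ⥤ QCoh f :=
  DerivedCategory.homologyFunctor (QCoh f) i

/-- The line bundle `O_X(n)` as a complex in degree zero. -/
noncomputable def OD (f : MvPolynomial (Fin 5) ℂ) (n : ℤ) : DX f :=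
  (DerivedCategory.singleFunctor (QCoh f) 0).obj (O f n)

/-- The objects of `D^b(X)`: complexes with bounded coherent cohomology. -/
def Db (f : MvPolynomial (Fin 5) ℂ) (E : DX f) : Prop :=
  (∀ i : ℤ, Coh f ((coho f i).obj E)) ∧
  ∃ N : ℤ, ∀ i : ℤ, i < -N ∨ N < i → IsZero ((coho f i).obj E)

/-- The objects of the Kuznetsov component `Ku(X)`, the right orthogonal of the structure sheaf:
objects `E` of `D^b(X)` with `RHom(O_X, E) = 0`. -/
def Ku (f : MvPolynomial (Fin 5) ℂ) : ObjectProperty (DX f) := fun E =>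
  Db f E ∧ ∀ (i : ℤ) (g : OD f 0 ⟶ E⟦i⟧), g = 0

/-- The Euler form `χ(E, F) = ∑ᵢ (-1)^i dim Hom(E, F[i])`. -/
noncomputable def eul {f : MvPolynomial (Fin 5) ℂ} (E F : DX f) : ℤ :=
  ∑ᶠ i : ℤ, (i.negOnePow : ℤ) * (Module.finrank ℂ (E ⟶ F⟦i⟧) : ℤ)

/-- The Hilbert polynomial `n ↦ χ(E(n)) = χ(O_X(-n), E)`. -/
noncomputable def hilb {f : MvPolynomial (Fin 5) ℂ} (E : DX f) (n : ℤ) : ℝ := (eul (OD f (-n)) E : ℝ)

/-- `H³ch₀(E)`, the third difference of the Hilbert polynomial. By Riemann-Roch on `X` (with
canonical class `-H`), `χ(E(n))` is a cubic polynomial with leading coefficient `H³ch₀(E) / 6`. -/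
noncomputable def ch0 {f : MvPolynomial (Fin 5) ℂ} (E : DX f) : ℝ :=
  hilb E 0 - 3 * hilb E (-1) + 3 * hilb E (-2) - hilb E (-3)

/-- `H²ch₁(E)`: by Riemann-Roch, the second difference of the Hilbert polynomial is
`H²ch₁(E) - H³ch₀(E) / 2`. -/
noncomputable def ch1 {f : MvPolynomial (Fin 5) ℂ} (E : DX f) : ℝ :=
  hilb E 0 - 2 * hilb E (-1) + hilb E (-2) + ch0 E / 2

/-- `Hch₂(E)`: by Riemann-Roch, the first difference of the Hilbert polynomial is
`Hch₂(E) + H³ch₀(E) / 2`. -/
noncomputable def ch2 {f : MvPolynomial (Fin 5) ℂ} (E : DX f) : ℝ :=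
  hilb E 0 - hilb E (-1) - ch0 E / 2

/-- The charge `Z_{s,q} = -(Hch₂ - q H³ch₀) + i (H²ch₁ - s H³ch₀)` of tilt stability. -/
noncomputable def Zsq {f : MvPolynomial (Fin 5) ℂ} (s q : ℝ) (E : DX f) : ℂ :=
  ⟨-(ch2 E - q * ch0 E), ch1 E - s * ch0 E⟩

/-- The rotated charge `Z^μ_{s,q} = Z_{s,q} / u`, with `u` the unit vector of the upper half plane
such that `- Re u / Im u = μ`. -/
noncomputable def Zmu {f : MvPolynomial (Fin 5) ℂ} (s q μ : ℝ) (E : DX f) : ℂ :=
  Zsq s q E / ((-μ + Complex.I) / ‖(-μ + Complex.I : ℂ)‖)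

/-- There is a distinguished triangle `A ⟶ B ⟶ C ⟶ A⟦1⟧`. -/
def IsTri {f : MvPolynomial (Fin 5) ℂ} (A B C : DX f) : Prop :=
  ∃ (a : A ⟶ B) (b : B ⟶ C) (c : C ⟶ A⟦(1 : ℤ)⟧), Triangle.mk a b c ∈ distTriang (DX f)

/-- `E` has a finite filtration whose factors are nonzero, semistable (in `P`), with strictly
decreasing phases. -/
def HasHN {f : MvPolynomial (Fin 5) ℂ} (P : ℝ → DX f → Prop) (E : DX f) : Prop :=
  ∃ (n : ℕ) (X A : ℕ → DX f) (φ : ℕ → ℝ), IsZero (X 0) ∧ Nonempty (X n ≅ E) ∧
    ∀ i < n, P (φ i) (A i) ∧ ¬ IsZero (A i) ∧ IsTri (X i) (X (i + 1)) (A i) ∧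
      (i + 1 < n → φ (i + 1) < φ i)

/-- Bridgeland stability conditions on the Kuznetsov component, with respect to its
numerical Grothendieck group: a slicing `P` and a central charge `Z` with Harder-Narasimhan
filtrations (`hn`), such that `Z` factors through the numerical Grothendieck group (`numerical`)
and the support property holds (`support`, tested on the functionals `χ(F, -)`). -/
structure StabCond (f : MvPolynomial (Fin 5) ℂ) where
  /-- the semistable objects of each phase -/
  P : ℝ → DX f → Prop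
  /-- the central charge -/
  Z : DX f → ℂ
  le : ∀ φ E, P φ E → Ku f E
  iso : ∀ φ E F, Nonempty (E ≅ F) → P φ E → P φ F
  zero : ∀ φ E, IsZero E → P φ E
  extension : ∀ φ E F G, P φ E → P φ F → IsTri E G F → P φ G
  shift : ∀ φ E, P (φ + 1) (E⟦(1 : ℤ)⟧) ↔ P φ E
  hom : ∀ φ ψ E F, ψ < φ → P φ E → P ψ F → ∀ g : E ⟶ F, g = 0
  hn : ∀ E, Ku f E → HasHN P E
  phase : ∀ φ E, P φ E → ¬ IsZero E → ∃ m : ℝ, 0 < m ∧
    Z E = m * Complex.exp (Real.pi * φ * Complex.I)
  additive : ∀ A B C, Ku f A → Ku f B → Ku f C → IsTri A B C → Z B = Z A + Z C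
  numerical : ∀ E E', Ku f E → Ku f E' → (∀ F, Ku f F → eul F E = eul F E') → Z E = Z E'
  support : ∀ F, Ku f F → ∃ C : ℝ, ∀ φ E, P φ E → |(eul F E : ℝ)| ≤ C * ‖Z E‖

/-- The Kuznetsov component as a category. -/
def KU (f : MvPolynomial (Fin 5) ℂ) : Type 1 := (Ku f).FullSubcategory

noncomputable instance (f : MvPolynomial (Fin 5) ℂ) : Category.{1} (KU f) :=
  (inferInstance : Category (Ku f).FullSubcategory)

noncomputable instance (f : MvPolynomial (Fin 5) ℂ) : Preadditive (KU f) :=
  (inferInstance : Preadditive (Ku f).FullSubcategory)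

noncomputable instance (f : MvPolynomial (Fin 5) ℂ) : Linear ℂ (KU f) :=
  (inferInstance : Linear ℂ (Ku f).FullSubcategory)

/-- The underlying complex. -/
def cpx {f : MvPolynomial (Fin 5) ℂ} (E : KU f) : DX f := E.1

/-- Morphisms in the Kuznetsov component. -/
def Hm {f : MvPolynomial (Fin 5) ℂ} (E F : KU f) : Type 1 := E ⟶ F

noncomputable instance {f : MvPolynomial (Fin 5) ℂ} (E F : KU f) : AddCommGroup (Hm E F) :=
  (inferInstance : AddCommGroup (E ⟶ F))

noncomputable instance {f : MvPolynomial (Fin 5) ℂ} (E F : KU f) : Module ℂ (Hm E F) :=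
  (inferInstance : Module ℂ (E ⟶ F))

/-- Composition of morphisms. -/
noncomputable def cm {f : MvPolynomial (Fin 5) ℂ} {E F G : KU f} (u : Hm E F) (v : Hm F G) : Hm E G :=
  (u : E ⟶ F) ≫ (v : F ⟶ G)

/-- The image of an object by an autoequivalence. -/
noncomputable def im {f : MvPolynomial (Fin 5) ℂ} (S : KU f ≌ KU f) (E : KU f) : KU f := S.functor.obj E

/-- The image of a morphism by an autoequivalence. -/
noncomputable def imm {f : MvPolynomial (Fin 5) ℂ} (S : KU f ≌ KU f) {E F : KU f} (u : Hm E F) :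
    Hm (im S E) (im S F) :=
  S.functor.map (u : E ⟶ F)

/-- A Serre functor on the Kuznetsov component: an autoequivalence `S` with bifunctorial
isomorphisms `Hom(E, F) ≃ Hom(F, S E)^*`. -/
structure SerreFunctor (f : MvPolynomial (Fin 5) ℂ) where
  /-- the autoequivalence -/
  S : KU f ≌ KU f
  /-- the duality -/
  η : ∀ E F : KU f, Hm E F ≃ₗ[ℂ] Module.Dual ℂ (Hm F (im S E))
  nat : ∀ {E E' F F' : KU f} (a : Hm E' E) (u : Hm E F) (b : Hm F F') (v : Hm F' (im S E')),
    η E' F' (cm a (cm u b)) v = η E F u (cm b (cm v (imm S a)))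

/-- The universal cover of the group of real matrices of size two with positive determinant: an
orientation-preserving real linear automorphism `g` of `ℂ` with a lift `f` of its action on
rays. -/
structure GLTilde where
  /-- the matrix -/
  g : ℂ ≃ₗ[ℝ] ℂ
  /-- the lift to phases -/
  f : ℝ → ℝ
  pos : 0 < LinearMap.det (g : ℂ →ₗ[ℝ] ℂ)
  mono : StrictMono f
  per : ∀ x, f (x + 1) = f x + 1
  compat : ∀ x : ℝ, ∃ m : ℝ, 0 < m ∧ g (Complex.exp (Real.pi * x * Complex.I)) =
    m * Complex.exp (Real.pi * f x * Complex.I)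

/-- Serre-invariance, `S · σ = σ · g` for some `g` in the universal cover: `Z(S E) = g (Z E)`, and
`E` is semistable of phase `φ` if and only if `S E` is semistable of phase `f φ`. -/
def SerreInvariant {f : MvPolynomial (Fin 5) ℂ} (σ : StabCond f) (𝒮 : SerreFunctor f) : Prop :=
  ∃ G : GLTilde, ∀ E : KU f,
    σ.Z (cpx (im 𝒮.S E)) = G.g (σ.Z (cpx E)) ∧
    ∀ φ : ℝ, σ.P φ (cpx E) ↔ σ.P (G.f φ) (cpx (im 𝒮.S E))

/-- Equations of smooth quartic threefolds in projective four-space: homogeneous polynomials of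
degree four in five variables whose partial derivatives have no common zero except the origin. -/
def SmoothQuartic (f : MvPolynomial (Fin 5) ℂ) : Prop :=
  f.IsHomogeneous 4 ∧
    ∀ x : Fin 5 → ℂ, (∀ i, MvPolynomial.eval x (MvPolynomial.pderiv i f) = 0) → x = 0

end Pool.Agent.H969Q
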