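import Mathlib
import Pool.Agent.H969Q.Stmt
import Pool.Agent.H969R2.CohX
import Pool.Agent.H969R2.Gen
import Pool.Agent.H969R2.Main

set_option autoImplicit false
set_option linter.unusedSectionVars false
set_option linter.unusedVariables false

open CategoryTheory CategoryTheory.Limits CategoryTheory.Abelian

namespace Pool.Agent.H969R2

section

variable {k : Type} [Field k] {σ D : Type} [Fintype σ] [AddCommGroup D] {w : σ → D}
  (f : MvPolynomial σ k) (δ : D)

lemma free_unique (b : Deg w (∅ : Set σ)) (F : GrF w f δ) (x : F.obj.obj b)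
    (hx : ∀ (M : GrF w f δ) (y : M.obj.obj b), ∃! g : F ⟶ M, g.hom.app b x = y) :
    Nonempty (F ≅ freeF f δ b) := by
  obtain ⟨g, hg, -⟩ := hx (freeF f δ b) (genF f δ b)
  refine ⟨⟨g, freeFdesc f δ (lift x), ?_, ?_⟩⟩
  · refine (hx F x).unique ?_ rfl
    change (freeFdesc f δ (lift x)).hom.app b (g.hom.app b x) = x
    rw [hg]
    exact genF_desc f δ b F x
  · apply genF_ext
    change g.hom.app b ((freeFdesc f δ (lift x)).hom.app b (genF f δ b)) = genF f δ b
    rw [genF_desc, hg]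

lemma fg_ext {M : GrF w f δ} {G : Set (Σ b : Deg w (∅ : Set σ), M.obj.obj b)}
    (hG : ∀ (m : Deg w (∅ : Set σ)) (y : M.obj.obj m),
      y ∈ Submodule.span k {z : M.obj.obj m | ∃ g ∈ G, ∃ β : g.1 ⟶ m, M.obj.map β g.2 = z})
    {N : GrF w f δ} (h h' : M ⟶ N) (H : ∀ g ∈ G, h.hom.app g.1 g.2 = h'.hom.app g.1 g.2) :
    h = h' := by
  ext m y
  have h1 := hG m y
  refine Submodule.span_induction (p := fun z _ => h.hom.app m z = h'.hom.app m z)
    ?_ ?_ ?_ ?_ h1
  · rintro z ⟨g, hg, β, rfl⟩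
    have e1 := nat_apply h.hom β g.2
    have e2 := nat_apply h'.hom β g.2
    rw [e1, e2, H g hg]
  · rw [map_zero, map_zero]
  · intro x y _ _ hx hy
    rw [map_add, map_add, hx, hy]
  · intro a x _ hx
    rw [map_smul, map_smul, hx]

lemma fg_jointly (F : Deg w (∅ : Set σ) → GrF w f δ) (iso : ∀ b, F b ≅ freeF f δ b)
    (M : GrF w f δ) (hM : FGr M.obj) :
    ∃ (r : ℕ) (b : Fin r → Deg w (∅ : Set σ)) (g : ∀ j, F (b j) ⟶ M),
      ∀ (N : GrF w f δ) (h h' : M ⟶ N), (∀ j, g j ≫ h = g j ≫ h') → h = h' := by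
  obtain ⟨G, hG, hG2⟩ := hM
  have : Fintype G := hG.fintype
  let e := Fintype.equivFin G
  let φ : ∀ j, F (e.symm j).1.1 ⟶ M := fun j =>
    (iso (e.symm j).1.1).hom ≫ freeFdesc f δ (lift (e.symm j).1.2)
  refine ⟨Fintype.card G, fun j => (e.symm j).1.1, φ, ?_⟩
  intro N h h' H
  refine fg_ext f δ hG2 h h' ?_
  intro g hg
  have h1 := H (e ⟨g, hg⟩)
  simp only [φ, Category.assoc] at h1
  rw [cancel_epi, Equiv.symm_apply_apply] at h1
  have h2 := congrArg (fun u => u.hom.app g.1 (genF f δ g.1)) h1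
  have h3 := genF_desc f δ g.1 M g.2
  change h.hom.app g.1 ((freeFdesc f δ (lift g.2)).hom.app g.1 (genF f δ g.1)) =
    h'.hom.app g.1 ((freeFdesc f δ (lift g.2)).hom.app g.1 (genF f δ g.1)) at h2
  rw [h3] at h2
  exact h2

end

universe w v u

section

variable {A : Type u} [Category.{v} A] [Abelian A] [Linear ℂ A] [HasExt.{w} A]

/-- Transport of extension groups along isomorphisms. -/
noncomputable def extIso {X X' Y Y' : A} (e : X ≅ X') (e' : Y ≅ Y') (n : ℕ) :
    Ext.{w} X Y n ≃ₗ[ℂ] Ext.{w} X' Y' n where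
  toFun x := (Ext.mk₀ e.inv).comp (x.comp (Ext.mk₀ e'.hom) (add_zero n)) (zero_add n)
  map_add' x y := by
    rw [Ext.add_comp, Ext.comp_add]
  map_smul' r x := by
    rw [Ext.smul_comp, Ext.comp_smul]
    rfl
  invFun x := (Ext.mk₀ e.hom).comp (x.comp (Ext.mk₀ e'.inv) (add_zero n)) (zero_add n)
  left_inv x := by
    simp only [Ext.comp_assoc_of_third_deg_zero, Ext.comp_assoc_of_second_deg_zero,
      Ext.mk₀_comp_mk₀_assoc, Ext.mk₀_comp_mk₀, Iso.hom_inv_id, Ext.mk₀_id_comp, Ext.comp_mk₀_id]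
  right_inv x := by
    simp only [Ext.comp_assoc_of_third_deg_zero, Ext.comp_assoc_of_second_deg_zero,
      Ext.mk₀_comp_mk₀_assoc, Ext.mk₀_comp_mk₀, Iso.inv_hom_id, Ext.mk₀_id_comp, Ext.comp_mk₀_id]

/-- Change of the factor in a decomposition. -/
def Dec.ofIso {C : Type*} [Category C] [Preadditive C] {m : ℕ} {Z Y Y' : C} (d : Dec m Z Y)
    (e : Y ≅ Y') : Dec m Z Y' where
  p j := d.p j ≫ e.hom
  q j := e.inv ≫ d.q j
  tot := by
    rw [← d.tot]
    refine Finset.sum_congr rfl fun j _ => ?_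
    rw [Category.assoc, Iso.hom_inv_id_assoc]
  ort i j := by
    rw [Category.assoc, ← Category.assoc (d.q i), d.ort]
    split_ifs with h
    · rw [Category.id_comp, Iso.inv_hom_id]
    · rw [zero_comp, comp_zero]

lemma LBDims.of_iso {O O' : ℤ → A} (e : ∀ n, O n ≅ O' n) (hO : LBDims.{w} O) : LBDims.{w} O' :=
  fun a n h1 h2 i => (hO a n h1 h2 i).equiv (extIso (e a) (e n) i)

end

end Pool.Agent.H969R2
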