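import Mathlib
import Pool.Agent.H969Q.Link

set_option autoImplicit false
set_option linter.unusedSectionVars false
set_option linter.unusedVariables false

open CategoryTheory CategoryTheory.Limits CategoryTheory.Abelian

namespace Pool.Agent.H969Q

open Pool.Agent.H969R2

lemma SmoothQuartic.ne_zero {f : MvPolynomial (Fin 5) ℂ} (hf : SmoothQuartic f) : f ≠ 0 := by
  rintro rfl
  have h := hf.2 (fun _ => 1) (fun i => by simp)
  have h2 := congrFun h 0
  simp at h2

lemma SmoothQuartic.homog {f : MvPolynomial (Fin 5) ℂ} (hf : SmoothQuartic f) :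
    Homog one5 f 4 := by
  intro α hα
  have h1 := hf.1 (MvPolynomial.mem_support_iff.1 hα)
  rw [wt_one5]
  rw [Finsupp.weight_apply, Finsupp.sum_fintype _ _ (by simp)] at h1
  simp only [Pi.one_apply, smul_eq_mul, mul_one] at h1
  have h2 : ((∑ i, α i : ℕ) : ℤ) = ((4 : ℕ) : ℤ) := congrArg _ h1
  push_cast at h2
  exact h2

variable (f : MvPolynomial (Fin 5) ℂ)

/-- The line bundles in the general framework. -/
noncomputable def O' (n : ℤ) : QX one5 (charts (Fin 5)) f 4 := O f n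

/-- The coherent sheaves in the general framework. -/
def Coh' : ObjectProperty (QX one5 (charts (Fin 5)) f 4) := Coh f

lemma isoFree (b : Deg one5 (∅ : Set (Fin 5))) :
    Nonempty ((fr f b : GrF one5 f 4) ≅ freeF f 4 b) := by
  obtain ⟨x, hx⟩ := (exists_free f b).choose_spec
  exact free_unique (w := one5) f 4 b (fr f b) x hx

lemma isoO (n : ℤ) : Nonempty (OX f n ≅ O' f n) := by
  obtain ⟨e⟩ := isoFree f ⟨-n⟩
  exact ⟨(shX one5 (charts (Fin 5)) f 4).mapIso e.symm⟩

lemma fg_of_FGr (M : GrF one5 f 4) (hM : FGr M.obj) : FG (f := f) M :=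
  fg_jointly (w := one5) f 4 (fun b => fr f b) (fun b => (isoFree f b).some) M hM

lemma coh_of_cohX (E : QX one5 (charts (Fin 5)) f 4) (h : cohX f E) : Coh' f E := by
  obtain ⟨M, hM, ⟨e⟩⟩ := h
  exact ⟨M, fg_of_FGr f M hM, ⟨e⟩⟩

lemma coh_iso (E F : QX one5 (charts (Fin 5)) f 4) (e : E ≅ F) (h : Coh' f E) : Coh' f F := by
  obtain ⟨M, hM, ⟨e'⟩⟩ := h
  exact ⟨M, hM, ⟨(e.symm : F ≅ E) ≪≫ (e' : E ≅ (shX one5 (charts (Fin 5)) f 4).obj M)⟩⟩

noncomputable instance : HasDerivedCategory.{1} (QX one5 (charts (Fin 5)) f 4) :=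
  HasDerivedCategory.standard _

theorem core (hf : SmoothQuartic f)
    (S : (H969R2.Ku (Coh' f) (O' f)).FullSubcategory → (H969R2.Ku (Coh' f) (O' f)).FullSubcategory)
    (η : ∀ E F : (H969R2.Ku (Coh' f) (O' f)).FullSubcategory,
      Nonempty ((E ⟶ F) ≃ₗ[ℂ] Module.Dual ℂ (F ⟶ S E)))
    (s q μ : ℝ) (hq : s ^ 2 / 2 < q) (g : ℂ →ₗ[ℝ] ℂ)
    (hZ : ∀ E : (H969R2.Ku (Coh' f) (O' f)).FullSubcategory,
      H969R2.Zmu (O' f) s q μ (S E).obj = g (H969R2.Zmu (O' f) s q μ E.obj)) : False := by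
  have : HasDerivedCategory.{1} (QP one5 (charts (Fin 5)) ℂ) := HasDerivedCategory.standard _
  have : HasExt.{1} (QP one5 (charts (Fin 5)) ℂ) := hasExt_of_hasDerivedCategory _
  have : HasExt.{1} (QX one5 (charts (Fin 5)) f 4) := hasExt_of_hasDerivedCategory _
  have iso : ∀ n, OX f n ≅ O' f n := fun n => (isoO f n).some
  have hO : LBDims.{1} (O' f) := LBDims.of_iso iso
    (fun a n h1 h2 i => extX_dim.{1} f hf.homog hf.ne_zero a n h1 h2 i)
  refine main_core (Coh' f) (coh_iso f) (O' f) hO ?_ ?_ ?_ S η s q μ hq g hZ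
  · intro n h1 h2 Z g h
    have h3 : (iso n).hom ≫ g = 0 := by
      refine OX_gen f n (by lia) Z ((iso n).hom ≫ g) fun u => ?_
      have h4 := h ((iso 0).inv ≫ u ≫ (iso n).hom)
      rw [← cancel_epi (iso 0).inv, comp_zero, ← h4]
      simp only [Category.assoc]
    rw [← cancel_epi (iso n).hom, h3, comp_zero]
  · exact fun Z hZ => coh_of_cohX f Z (cohX_zero f Z hZ)
  · intro m Z K d i hi
    exact coh_of_cohX f K (cohX_sub f m Z K (d.ofIso (iso 0).symm) i hi)

/-- No stability condition with the charge `Z^μ_{s,q}` on the Kuznetsov component of a smooth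
quartic threefold is Serre-invariant. -/
theorem main (hf : SmoothQuartic f) (𝒮 : SerreFunctor f) (s q μ : ℝ) (hq : s ^ 2 / 2 < q)
    (σ : StabCond f) (hZ : ∀ E, Ku f E → σ.Z E = Zmu s q μ E) : ¬ SerreInvariant σ 𝒮 := by
  rintro ⟨G, hG⟩
  have hK : ∀ E : KU f, Ku f (cpx E) := fun E => ObjectProperty.FullSubcategory.property E
  have key : ∀ E : KU f, Zmu s q μ (cpx (im 𝒮.S E)) = G.g (Zmu s q μ (cpx E)) := by
    intro E
    have h1 := (hG E).1
    rw [hZ _ (hK _), hZ _ (hK _)] at h1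
    exact h1
  exact core f hf (fun E => im 𝒮.S E) (fun E F => ⟨𝒮.η E F⟩) s q μ hq G.g key

end Pool.Agent.H969Q
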